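import Mathlib

/-!
# MP_1d723d_an : definitions

`Hnorm p A = (E |Ax|^p)^(1/p)` over the unit sphere of `ℝⁿ` with its normalised surface measure,
`inn A B = E ⟨Ax, Bx⟩`, `dualNorm A = sup {inn A B : Hnorm 1 B ≤ 1}` and the constant `c n`.
-/

namespace MP1d723d

open MeasureTheory Real

/-- The unit sphere `S^{n-1}` of `ℝⁿ`. -/
abbrev Sph (n : ℕ) := Metric.sphere (0 : EuclideanSpace ℝ (Fin n)) 1

/-- The surface measure on `S^{n-1}` (Mathlib's `toSphere` of Lebesgue measure). -/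
noncomputable def surf (n : ℕ) : Measure (Sph n) :=
  (volume : Measure (EuclideanSpace ℝ (Fin n))).toSphere

/-- The normalised surface measure on `S^{n-1}`: the surface measure divided by its mass. -/
noncomputable def sphμ (n : ℕ) : Measure (Sph n) := (surf n Set.univ)⁻¹ • surf n

/-- `Ax` for `x` on the sphere. -/
noncomputable def act {n : ℕ} (A : Matrix (Fin n) (Fin n) ℝ) (x : Sph n) (i : Fin n) : ℝ :=
  ∑ j, A i j * (x : EuclideanSpace ℝ (Fin n)) j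

/-- The Euclidean norm. -/
noncomputable def euc {n : ℕ} (v : Fin n → ℝ) : ℝ := √(∑ i, v i ^ 2)

/-- `‖A‖_{H^p} = (E_x |Ax|^p)^{1/p}`. -/
noncomputable def Hnorm {n : ℕ} (p : ℝ) (A : Matrix (Fin n) (Fin n) ℝ) : ℝ :=
  (∫ x, euc (act A x) ^ p ∂(sphμ n)) ^ (1 / p)

/-- `⟨A, B⟩ = E_x ⟨Ax, Bx⟩`. -/
noncomputable def inn {n : ℕ} (A B : Matrix (Fin n) (Fin n) ℝ) : ℝ :=
  ∫ x, ∑ i, act A x i * act B x i ∂(sphμ n)

/-- `‖A‖_{H^1_*} = sup {⟨A, B⟩ : ‖B‖_{H^1} ≤ 1}`. -/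
noncomputable def dualNorm {n : ℕ} (A : Matrix (Fin n) (Fin n) ℝ) : ℝ :=
  sSup {t : ℝ | ∃ B : Matrix (Fin n) (Fin n) ℝ, Hnorm 1 B ≤ 1 ∧ t = inn A B}

/-- `c_n = 2^{5/4} / √π * Γ((n+1)/2) / Γ(n/2) * (n+2)^{1/4} / n^{3/4}`. -/
noncomputable def c (n : ℕ) : ℝ :=
  (2 : ℝ) ^ (5 / 4 : ℝ) / √π * (Real.Gamma (((n : ℝ) + 1) / 2) / Real.Gamma ((n : ℝ) / 2)) *
    (((n : ℝ) + 2) ^ (1 / 4 : ℝ) / (n : ℝ) ^ (3 / 4 : ℝ))

/-- `D(t) = √(β² + γ² t²)` with `β = 64/1025`, `γ = 1023/1025` (so `β² + γ² = 1`). -/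
noncomputable def D (t : ℝ) : ℝ := √((64 / 1025 : ℝ) ^ 2 + (1023 / 1025 : ℝ) ^ 2 * t ^ 2)

theorem lin_apply {n : ℕ} (H : Matrix (Fin n) (Fin n) ℝ) (x : EuclideanSpace ℝ (Fin n))
    (i : Fin n) : Matrix.toEuclideanLin H x i = ∑ j, H i j * x j := by
  simp [Matrix.toLpLin_apply, Matrix.mulVec, dotProduct]

theorem Hnorm_eq {n : ℕ} (p : ℝ) (A : Matrix (Fin n) (Fin n) ℝ) :
    Hnorm p A = (∫ x : Sph n,
      ‖Matrix.toEuclideanLin A (x : EuclideanSpace ℝ (Fin n))‖ ^ p ∂(sphμ n)) ^ (1 / p) := by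
  have h : ∀ x : Sph n, euc (act A x) =
      ‖Matrix.toEuclideanLin A (x : EuclideanSpace ℝ (Fin n))‖ := by
    intro x
    rw [EuclideanSpace.norm_eq, euc]
    congr 1
    refine Finset.sum_congr rfl fun i _ => ?_
    rw [lin_apply, Real.norm_eq_abs, sq_abs, act]
  simp only [Hnorm, h]

theorem inn_eq0 {n : ℕ} (A B : Matrix (Fin n) (Fin n) ℝ) :
    inn A B = ∫ x : Sph n, inner ℝ (Matrix.toEuclideanLin A (x : EuclideanSpace ℝ (Fin n)))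
      (Matrix.toEuclideanLin B (x : EuclideanSpace ℝ (Fin n))) ∂(sphμ n) := by
  rw [inn]
  refine integral_congr_ae (Filter.Eventually.of_forall fun x => ?_)
  simp only
  rw [PiLp.inner_apply]
  refine Finset.sum_congr rfl fun i _ => ?_
  rw [lin_apply, lin_apply]
  simp only [RCLike.inner_apply, conj_trivial, act]
  ring

end MP1d723d
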