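import Pool.Agent.Lib_MP_1d723d_an.Defs

/-!
# MP_1d723d_an : the numerical bounds
-/

namespace MP1d723d

open MeasureTheory Real intervalIntegral

lemma D_sq (t : ℝ) : D t ^ 2 = (64 / 1025 : ℝ) ^ 2 + (1023 / 1025 : ℝ) ^ 2 * t ^ 2 := by
  unfold D
  rw [Real.sq_sqrt (by positivity)]

lemma D_pos (t : ℝ) : 0 < D t := by
  unfold D
  apply Real.sqrt_pos.mpr
  positivity

lemma D_one : D 1 = 1 := by
  unfold D
  rw [show ((64 / 1025 : ℝ) ^ 2 + (1023 / 1025 : ℝ) ^ 2 * 1 ^ 2) = 1 by norm_num]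
  exact Real.sqrt_one

lemma D_neg_one : D (-1) = 1 := by
  unfold D
  rw [show ((64 / 1025 : ℝ) ^ 2 + (1023 / 1025 : ℝ) ^ 2 * (-1) ^ 2) = 1 by norm_num]
  exact Real.sqrt_one

lemma D_continuous : Continuous D := by
  unfold D
  fun_prop

lemma hasDerivAt_D (t : ℝ) : HasDerivAt D ((1023 / 1025 : ℝ) ^ 2 * t / D t) t := by
  have h1 : HasDerivAt (fun t : ℝ => (64 / 1025 : ℝ) ^ 2 + (1023 / 1025 : ℝ) ^ 2 * t ^ 2)
      ((1023 / 1025 : ℝ) ^ 2 * (2 * t)) t := by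
    have h := ((hasDerivAt_pow 2 t).const_mul ((1023 / 1025 : ℝ) ^ 2)).const_add
      ((64 / 1025 : ℝ) ^ 2)
    simpa using h
  have h2 := h1.sqrt (by positivity)
  have h3 : HasDerivAt D ((1023 / 1025 : ℝ) ^ 2 * (2 * t) / (2 * D t)) t := h2
  convert h3 using 1
  have := (D_pos t).ne'
  field_simp

lemma gt_add_D_pos (t : ℝ) : 0 < (1023 / 1025 : ℝ) * t + D t := by
  have h1 := D_sq t
  have h2 := D_pos t
  by_contra h
  push Not at h
  have h3 : D t ≤ -((1023 / 1025 : ℝ) * t) := by linarith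
  have h4 : D t ^ 2 ≤ (-((1023 / 1025 : ℝ) * t)) ^ 2 := by
    apply pow_le_pow_left₀ h2.le h3
  rw [h1] at h4
  nlinarith

lemma intble (n : ℕ) : IntervalIntegrable (fun t : ℝ => t ^ n / D t) volume (-1) 1 := by
  apply Continuous.intervalIntegrable
  exact (continuous_pow n).div D_continuous fun t => (D_pos t).ne'

lemma I0_eq : ∫ t in (-1 : ℝ)..1, t ^ 0 / D t = 10 * Real.log 2 * (1025 / 1023) := by
  have h : ∀ t ∈ Set.uIcc (-1 : ℝ) 1, HasDerivAt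
      (fun t : ℝ => (1025 / 1023 : ℝ) * Real.log ((1023 / 1025 : ℝ) * t + D t))
      (t ^ 0 / D t) t := by
    intro t _
    have h1 : HasDerivAt (fun t : ℝ => (1023 / 1025 : ℝ) * t + D t)
        ((1023 / 1025 : ℝ) + (1023 / 1025 : ℝ) ^ 2 * t / D t) t := by
      have h2 : HasDerivAt (fun t : ℝ => (1023 / 1025 : ℝ) * t + D t)
          ((1023 / 1025 : ℝ) * 1 + (1023 / 1025 : ℝ) ^ 2 * t / D t) t :=
        ((hasDerivAt_id t).const_mul (1023 / 1025 : ℝ)).add (hasDerivAt_D t)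
      rwa [mul_one] at h2
    have h3 := (h1.log (gt_add_D_pos t).ne').const_mul (1025 / 1023 : ℝ)
    have h4 := (D_pos t).ne'
    have h5 := (gt_add_D_pos t).ne'
    have h6 : t ^ 0 / D t = (1025 / 1023 : ℝ) * (((1023 / 1025 : ℝ) +
        (1023 / 1025 : ℝ) ^ 2 * t / D t) / ((1023 / 1025 : ℝ) * t + D t)) := by
      rw [pow_zero, div_eq_iff h4, eq_comm]
      have h7 : ((1023 / 1025 : ℝ) + (1023 / 1025 : ℝ) ^ 2 * t / D t) =
          (1023 / 1025 : ℝ) * ((1023 / 1025 : ℝ) * t + D t) / D t := by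
        rw [eq_div_iff h4, add_mul, div_mul_cancel₀ _ h4]
        ring
      rw [h7, div_right_comm, mul_div_assoc, div_self h5]
      field_simp
    rw [h6]
    exact h3
  rw [integral_eq_sub_of_hasDerivAt h (intble 0)]
  rw [D_one, D_neg_one]
  have h6 : Real.log ((1023 / 1025 : ℝ) * 1 + 1) - Real.log ((1023 / 1025 : ℝ) * (-1) + 1) =
      10 * Real.log 2 := by
    rw [← Real.log_div (by norm_num) (by norm_num)]
    rw [show ((1023 / 1025 : ℝ) * 1 + 1) / ((1023 / 1025 : ℝ) * (-1) + 1) = 2 ^ 10 by norm_num]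
    rw [Real.log_pow]
    norm_num
  linear_combination (1025 / 1023 : ℝ) * h6

lemma I_rec (j : ℕ) : (2 * (j : ℝ) + 1) * (64 / 1025 : ℝ) ^ 2 *
      (∫ t in (-1 : ℝ)..1, t ^ (2 * j) / D t) +
    (2 * (j : ℝ) + 2) * (1023 / 1025 : ℝ) ^ 2 * (∫ t in (-1 : ℝ)..1, t ^ (2 * j + 2) / D t) =
      2 := by
  have h : ∀ t ∈ Set.uIcc (-1 : ℝ) 1, HasDerivAt (fun t : ℝ => t ^ (2 * j + 1) * D t)
      ((2 * (j : ℝ) + 1) * (64 / 1025 : ℝ) ^ 2 * (t ^ (2 * j) / D t) +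
        (2 * (j : ℝ) + 2) * (1023 / 1025 : ℝ) ^ 2 * (t ^ (2 * j + 2) / D t)) t := by
    intro t _
    have h1 : HasDerivAt (fun t : ℝ => t ^ (2 * j + 1) * D t)
        (((2 * j + 1 : ℕ) : ℝ) * t ^ (2 * j) * D t +
          t ^ (2 * j + 1) * ((1023 / 1025 : ℝ) ^ 2 * t / D t)) t :=
      (hasDerivAt_pow (2 * j + 1) t).mul (hasDerivAt_D t)
    have h4 := (D_pos t).ne'
    have h5 := D_sq t
    have h6 : (2 * (j : ℝ) + 1) * (64 / 1025 : ℝ) ^ 2 * (t ^ (2 * j) / D t) +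
        (2 * (j : ℝ) + 2) * (1023 / 1025 : ℝ) ^ 2 * (t ^ (2 * j + 2) / D t) =
        ((2 * j + 1 : ℕ) : ℝ) * t ^ (2 * j) * D t +
          t ^ (2 * j + 1) * ((1023 / 1025 : ℝ) ^ 2 * t / D t) := by
      have h7 : ((2 * j + 1 : ℕ) : ℝ) * t ^ (2 * j) * D t =
          ((2 * j + 1 : ℕ) : ℝ) * t ^ (2 * j) * D t ^ 2 / D t := by
        rw [eq_div_iff h4]
        ring
      rw [h7, h5]
      push_cast
      ring
    rw [h6]
    exact h1
  have h2 := integral_eq_sub_of_hasDerivAt h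
    (((intble (2 * j)).const_mul _).add ((intble (2 * j + 2)).const_mul _))
  rw [integral_add ((intble (2 * j)).const_mul _) ((intble (2 * j + 2)).const_mul _),
    intervalIntegral.integral_const_mul, intervalIntegral.integral_const_mul, D_one, D_neg_one]
    at h2
  rw [h2]
  rw [one_pow, Odd.neg_one_pow ⟨j, rfl⟩]
  norm_num

/-- lower bound for `a₁ = 7 E[x₀²/D(x₀)]` -/
theorem a1_bound : (2.13434 : ℝ) ≤ 7 * ((15 / 16) * ∫ t in (-1 : ℝ)..1, t ^ 2 / D t * (1 - t ^ 2) ^ 2) := by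
  have h0 := I0_eq
  have h1 := I_rec 0
  have h2 := I_rec 1
  have h3 := I_rec 2
  have hl1 := Real.log_two_gt_d9
  have hl2 := Real.log_two_lt_d9
  have h : ∫ t in (-1 : ℝ)..1, t ^ 2 / D t * (1 - t ^ 2) ^ 2 =
      (∫ t in (-1 : ℝ)..1, t ^ 2 / D t) - 2 * (∫ t in (-1 : ℝ)..1, t ^ 4 / D t) +
        ∫ t in (-1 : ℝ)..1, t ^ 6 / D t := by
    rw [← intervalIntegral.integral_const_mul, ← integral_sub (intble 2) ((intble 4).const_mul 2),
      ← integral_add ((intble 2).sub ((intble 4).const_mul 2)) (intble 6)]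
    apply integral_congr
    intro t _
    simp only
    ring
  rw [h]
  norm_num at h0 h1 h2 h3 ⊢
  linarith

/-- lower bound for `a = (7β/6) E[(1-x₀²)/D(x₀)]` -/
theorem a_bound : (0.3509 : ℝ) ≤ 7 * (64 / 1025) / 6 *
    ((15 / 16) * ∫ t in (-1 : ℝ)..1, (1 - t ^ 2) / D t * (1 - t ^ 2) ^ 2) := by
  have h0 := I0_eq
  have h1 := I_rec 0
  have h2 := I_rec 1
  have h3 := I_rec 2
  have hl1 := Real.log_two_gt_d9
  have hl2 := Real.log_two_lt_d9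
  have h : ∫ t in (-1 : ℝ)..1, (1 - t ^ 2) / D t * (1 - t ^ 2) ^ 2 =
      (∫ t in (-1 : ℝ)..1, t ^ 0 / D t) - 3 * (∫ t in (-1 : ℝ)..1, t ^ 2 / D t) +
        3 * (∫ t in (-1 : ℝ)..1, t ^ 4 / D t) - ∫ t in (-1 : ℝ)..1, t ^ 6 / D t := by
    rw [← intervalIntegral.integral_const_mul, ← intervalIntegral.integral_const_mul,
      ← integral_sub (intble 0) ((intble 2).const_mul 3),
      ← integral_add ((intble 0).sub ((intble 2).const_mul 3)) ((intble 4).const_mul 3),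
      ← integral_sub (((intble 0).sub ((intble 2).const_mul 3)).add ((intble 4).const_mul 3))
        (intble 6)]
    apply integral_congr
    intro t _
    simp only
    ring
  rw [h]
  norm_num at h0 h1 h2 h3 ⊢
  linarith

/-- the value of `c₇⁴` -/
lemma c_seven_pow : (c 7) ^ 4 = 32 * (16 / 5) ^ 4 * 9 / (343 * π ^ 4) := by
  have hpi := Real.pi_pos
  have hG4 : Real.Gamma (((7 : ℕ) : ℝ) + 1) = 5040 := by
    rw [Real.Gamma_nat_eq_factorial]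
    norm_num [Nat.factorial]
  have hg4 : Real.Gamma ((((7 : ℕ) : ℝ) + 1) / 2) = 6 := by
    rw [show (((7 : ℕ) : ℝ) + 1) / 2 = ((3 : ℕ) : ℝ) + 1 by norm_num,
      Real.Gamma_nat_eq_factorial]
    norm_num [Nat.factorial]
  have hg72 : Real.Gamma (((7 : ℕ) : ℝ) / 2) = 15 / 8 * √π := by
    rw [show ((7 : ℕ) : ℝ) / 2 = (1 / 2 + 1 + 1) + 1 by norm_num,
      Real.Gamma_add_one (by norm_num), Real.Gamma_add_one (by norm_num),
      Real.Gamma_add_one (by norm_num), Real.Gamma_one_half_eq]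
    ring
  unfold c
  rw [hg4, hg72]
  rw [mul_pow, mul_pow, div_pow, div_pow, div_pow]
  have h1 : ((2 : ℝ) ^ (5 / 4 : ℝ)) ^ 4 = 32 := by
    rw [← Real.rpow_natCast, ← Real.rpow_mul (by norm_num)]
    norm_num
  have h2 : ((((7 : ℕ) : ℝ) + 2) ^ (1 / 4 : ℝ)) ^ 4 = 9 := by
    rw [← Real.rpow_natCast, ← Real.rpow_mul (by norm_num)]
    norm_num
  have h3 : (((7 : ℕ) : ℝ) ^ (3 / 4 : ℝ)) ^ 4 = 343 := by
    rw [← Real.rpow_natCast, ← Real.rpow_mul (by norm_num)]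
    norm_num
  have h4 : √π ^ 4 = π ^ 2 := by
    rw [show (4 : ℕ) = 2 * 2 by norm_num, pow_mul, Real.sq_sqrt hpi.le]
  rw [h1, h2, h3, mul_pow, h4]
  field_simp
  norm_num

/-- the final numerical inequality `c₇⁴ ‖A‖_{H⁴}⁴ > 1` -/
theorem final_bound (a1 a : ℝ) (h1 : 2.13434 ≤ a1) (h2 : 0.3509 ≤ a) :
    1 < (c 7) ^ 4 * (((a1 ^ 2 + 6 * a ^ 2) ^ 2 + 2 * (a1 ^ 4 + 6 * a ^ 4)) / 63) := by
  rw [c_seven_pow]
  have hpi := Real.pi_pos
  have hpi2 : π ^ 4 < 3.14159266 ^ 4 := by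
    apply pow_lt_pow_left₀ _ hpi.le (by norm_num)
    have := Real.pi_lt_d20
    linarith
  have h3 : (2.13434 : ℝ) ^ 2 ≤ a1 ^ 2 := pow_le_pow_left₀ (by norm_num) h1 2
  have h4 : (0.3509 : ℝ) ^ 2 ≤ a ^ 2 := pow_le_pow_left₀ (by norm_num) h2 2
  have h5 : (2.13434 : ℝ) ^ 4 ≤ a1 ^ 4 := pow_le_pow_left₀ (by norm_num) h1 4
  have h6 : (0.3509 : ℝ) ^ 4 ≤ a ^ 4 := pow_le_pow_left₀ (by norm_num) h2 4
  have h7 : ((2.13434 : ℝ) ^ 2 + 6 * 0.3509 ^ 2) ^ 2 ≤ (a1 ^ 2 + 6 * a ^ 2) ^ 2 :=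
    pow_le_pow_left₀ (by norm_num) (by linarith) 2
  have h8 : ((2.13434 : ℝ) ^ 2 + 6 * 0.3509 ^ 2) ^ 2 + 2 * (2.13434 ^ 4 + 6 * 0.3509 ^ 4) ≤
      (a1 ^ 2 + 6 * a ^ 2) ^ 2 + 2 * (a1 ^ 4 + 6 * a ^ 4) := by linarith
  rw [div_mul_div_comm, lt_div_iff₀ (by positivity)]
  norm_num at hpi2 h8 ⊢
  linarith

end MP1d723d
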