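import Pool.Agent.Lib_MP_1d723d_an.Marg7
import Pool.Agent.Lib_MP_1d723d_an.Numbers

/-!
# The counterexample in dimension 7
-/

namespace MP1d723d

open MeasureTheory Real Set Metric

/-- diagonal entries `(u, w, …, w)` -/
def dv (u w : ℝ) (i : Fin 7) : ℝ := if i = 0 then u else w

/-- `diag(u, w, …, w)` -/
def dm (u w : ℝ) : Matrix (Fin 7) (Fin 7) ℝ := Matrix.diagonal (dv u w)

theorem dm_apply (u w : ℝ) (x : EuclideanSpace ℝ (Fin 7)) (i : Fin 7) :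
    Matrix.toEuclideanLin (dm u w) x i = dv u w i * x i := by
  simp [dm, Matrix.toLpLin_apply, Matrix.mulVec_diagonal]

/-- `|diag(u,w,…,w) x|² = w² + (u² - w²) x₀²` on the sphere. -/
theorem dm_norm_sq (u w : ℝ) (x : Sph 7) :
    ‖Matrix.toEuclideanLin (dm u w) (x : EuclideanSpace ℝ (Fin 7))‖ ^ 2 =
      w ^ 2 + (u ^ 2 - w ^ 2) * (x : EuclideanSpace ℝ (Fin 7)) 0 ^ 2 := by
  have h := sphere_sum x
  rw [EuclideanSpace.norm_sq_eq]
  simp only [dm_apply, Real.norm_eq_abs, sq_abs, mul_pow]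
  rw [Fin.sum_univ_succ] at h ⊢
  have h2 : ∀ i : Fin 6, dv u w i.succ = w := fun i => by simp [dv, Fin.succ_ne_zero]
  have h3 : dv u w 0 = u := by simp [dv]
  simp only [h2, h3]
  rw [← Finset.mul_sum]
  have h4 : ∑ i : Fin 6, (x : EuclideanSpace ℝ (Fin 7)) i.succ ^ 2 =
    1 - (x : EuclideanSpace ℝ (Fin 7)) 0 ^ 2 := by linarith
  rw [h4]
  ring

/-- `E[q(x₀) ⟨diag(d) x, H x⟩] = Σ d_i H_ii E[q(x₀) x_i²]`. -/
theorem quad {q : ℝ → ℝ} (hqc : Continuous q) (hq : ∀ t, q (-t) = q t) (u w : ℝ)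
    (H : Matrix (Fin 7) (Fin 7) ℝ) :
    ∫ x : Sph 7, q ((x : EuclideanSpace ℝ (Fin 7)) 0) *
      inner ℝ (Matrix.toEuclideanLin (dm u w) (x : EuclideanSpace ℝ (Fin 7)))
        (Matrix.toEuclideanLin H (x : EuclideanSpace ℝ (Fin 7))) ∂(sphμ 7) =
    ∑ i, dv u w i * H i i * ∫ x : Sph 7, q ((x : EuclideanSpace ℝ (Fin 7)) 0) *
      (x : EuclideanSpace ℝ (Fin 7)) i ^ 2 ∂(sphμ 7) := by
  have h1 : ∀ x : Sph 7, q ((x : EuclideanSpace ℝ (Fin 7)) 0) *
      inner ℝ (Matrix.toEuclideanLin (dm u w) (x : EuclideanSpace ℝ (Fin 7)))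
        (Matrix.toEuclideanLin H (x : EuclideanSpace ℝ (Fin 7))) =
      ∑ i, ∑ j, (dv u w i * H i j) * (q ((x : EuclideanSpace ℝ (Fin 7)) 0) *
        ((x : EuclideanSpace ℝ (Fin 7)) i * (x : EuclideanSpace ℝ (Fin 7)) j)) := by
    intro x
    rw [PiLp.inner_apply, Finset.mul_sum]
    refine Finset.sum_congr rfl fun i _ => ?_
    rw [dm_apply, lin_apply]
    simp only [RCLike.inner_apply, conj_trivial]
    rw [Finset.sum_mul, Finset.mul_sum]
    refine Finset.sum_congr rfl fun j _ => ?_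
    ring
  simp only [h1]
  rw [integral_finsetSum]
  · refine Finset.sum_congr rfl fun i _ => ?_
    rw [integral_finsetSum]
    · rw [Finset.sum_eq_single i]
      · rw [integral_const_mul]
        congr 1
        refine integral_congr_ae (Filter.Eventually.of_forall fun x => ?_)
        simp only [pow_two]
      · intro j _ hj
        rw [integral_const_mul, mixed q hq hj.symm, mul_zero]
      · intro h
        exact absurd (Finset.mem_univ i) h
    · intro j _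
      exact sint (by fun_prop)
  · intro i _
    refine integrable_finsetSum _ fun j _ => ?_
    exact sint (by fun_prop)

theorem E_x0_sq : ∫ x : Sph 7, (x : EuclideanSpace ℝ (Fin 7)) 0 ^ 2 ∂(sphμ 7) = 1 / 7 := by
  rw [marg7 (f := fun t => t ^ 2) (by fun_prop)]
  have : ∀ t : ℝ, t ^ 2 * (1 - t ^ 2) ^ 2 = t ^ 2 - 2 * t ^ 4 + t ^ 6 := fun t => by ring
  simp only [this]
  rw [intervalIntegral.integral_add, intervalIntegral.integral_sub,
    intervalIntegral.integral_const_mul, integral_pow, integral_pow, integral_pow]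
  · norm_num
  all_goals exact Continuous.intervalIntegrable (by fun_prop) _ _

/-- `‖diag(u,w,…,w)‖_{H⁴}⁴`. -/
theorem H4 (u w : ℝ) :
    ∫ x : Sph 7, ‖Matrix.toEuclideanLin (dm u w) (x : EuclideanSpace ℝ (Fin 7))‖ ^ (4 : ℝ)
      ∂(sphμ 7) = ((u ^ 2 + 6 * w ^ 2) ^ 2 + 2 * (u ^ 4 + 6 * w ^ 4)) / 63 := by
  have h1 : ∀ x : Sph 7,
      ‖Matrix.toEuclideanLin (dm u w) (x : EuclideanSpace ℝ (Fin 7))‖ ^ (4 : ℝ) =
      (w ^ 2 + (u ^ 2 - w ^ 2) * (x : EuclideanSpace ℝ (Fin 7)) 0 ^ 2) ^ 2 := by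
    intro x
    rw [← dm_norm_sq, ← pow_mul]
    exact_mod_cast Real.rpow_natCast _ 4
  simp only [h1]
  rw [marg7 (f := fun t => (w ^ 2 + (u ^ 2 - w ^ 2) * t ^ 2) ^ 2) (by fun_prop)]
  have : ∀ t : ℝ, (w ^ 2 + (u ^ 2 - w ^ 2) * t ^ 2) ^ 2 * (1 - t ^ 2) ^ 2 =
      w ^ 4 + (2 * w ^ 2 * (u ^ 2 - w ^ 2) - 2 * w ^ 4) * t ^ 2 +
      ((u ^ 2 - w ^ 2) ^ 2 - 4 * w ^ 2 * (u ^ 2 - w ^ 2) + w ^ 4) * t ^ 4 +
      (2 * w ^ 2 * (u ^ 2 - w ^ 2) - 2 * (u ^ 2 - w ^ 2) ^ 2) * t ^ 6 +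
      (u ^ 2 - w ^ 2) ^ 2 * t ^ 8 := fun t => by ring
  simp only [this]
  rw [intervalIntegral.integral_add, intervalIntegral.integral_add,
    intervalIntegral.integral_add, intervalIntegral.integral_add,
    intervalIntegral.integral_const_mul, intervalIntegral.integral_const_mul,
    intervalIntegral.integral_const_mul, intervalIntegral.integral_const_mul,
    integral_pow, integral_pow, integral_pow, integral_pow, intervalIntegral.integral_const]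
  · norm_num
    ring
  all_goals exact Continuous.intervalIntegrable (by fun_prop) _ _

/-- the first entry of `A`: `7 E[x₀²/D(x₀)]` -/
noncomputable def A1 : ℝ := 7 * ((15 / 16) * ∫ t in (-1 : ℝ)..1, t ^ 2 / D t * (1 - t ^ 2) ^ 2)

/-- the other diagonal entries of `A`: `(7β/6) E[(1-x₀²)/D(x₀)]` -/
noncomputable def A2 : ℝ := 7 * (64 / 1025) / 6 *
  ((15 / 16) * ∫ t in (-1 : ℝ)..1, (1 - t ^ 2) / D t * (1 - t ^ 2) ^ 2)

/-- The counterexample. -/
noncomputable def Actr : Matrix (Fin 7) (Fin 7) ℝ := dm A1 A2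

theorem qc : Continuous (fun t => (D t)⁻¹) := D_continuous.inv₀ fun t => (D_pos t).ne'

theorem D_neg (t : ℝ) : D (-t) = D t := by
  unfold D
  ring_nf

/-- `⟨A, H⟩ = E ⟨Bx/|Bx|, Hx⟩`. -/
theorem inn_eq (H : Matrix (Fin 7) (Fin 7) ℝ) :
    inn Actr H = ∫ x : Sph 7, (D ((x : EuclideanSpace ℝ (Fin 7)) 0))⁻¹ *
      inner ℝ (Matrix.toEuclideanLin (dm 1 (64 / 1025)) (x : EuclideanSpace ℝ (Fin 7)))
        (Matrix.toEuclideanLin H (x : EuclideanSpace ℝ (Fin 7))) ∂(sphμ 7) := by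
  have h1 := quad (q := fun _ => (1 : ℝ)) continuous_const (fun _ => rfl) A1 A2 H
  have h2 := quad (q := fun t => (D t)⁻¹) qc (fun t => by rw [D_neg]) 1 (64 / 1025) H
  simp only [one_mul] at h1
  rw [inn_eq0, Actr, h1, h2]
  refine Finset.sum_congr rfl fun i _ => ?_
  by_cases hi : i = 0
  · subst hi
    have h3 : ∫ x : Sph 7, (D ((x : EuclideanSpace ℝ (Fin 7)) 0))⁻¹ *
        (x : EuclideanSpace ℝ (Fin 7)) 0 ^ 2 ∂(sphμ 7) = A1 / 7 := by
      rw [marg7 (f := fun t => (D t)⁻¹ * t ^ 2) (qc.mul (by fun_prop)), A1]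
      have : ∀ t : ℝ, (D t)⁻¹ * t ^ 2 * (1 - t ^ 2) ^ 2 = t ^ 2 / D t * (1 - t ^ 2) ^ 2 :=
        fun t => by rw [div_eq_inv_mul]
      simp only [this]
      ring
    rw [h3, E_x0_sq]
    simp only [dv, if_true]
    ring
  · have h3 := off_moment (q := fun t => (D t)⁻¹) qc hi
    have h4 := off_moment (q := fun _ => (1 : ℝ)) continuous_const hi
    simp only [one_mul] at h4
    have h5 : ∫ x : Sph 7, (D ((x : EuclideanSpace ℝ (Fin 7)) 0))⁻¹ *
        (1 - (x : EuclideanSpace ℝ (Fin 7)) 0 ^ 2) ∂(sphμ 7) = (15 / 16) *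
          ∫ t in (-1 : ℝ)..1, (1 - t ^ 2) / D t * (1 - t ^ 2) ^ 2 := by
      rw [marg7 (f := fun t => (D t)⁻¹ * (1 - t ^ 2)) (qc.mul (by fun_prop))]
      have : ∀ t : ℝ, (D t)⁻¹ * (1 - t ^ 2) * (1 - t ^ 2) ^ 2 =
          (1 - t ^ 2) / D t * (1 - t ^ 2) ^ 2 :=
        fun t => by rw [div_eq_inv_mul]
      simp only [this]
    have h6 : ∫ x : Sph 7, (1 - (x : EuclideanSpace ℝ (Fin 7)) 0 ^ 2) ∂(sphμ 7) = 6 / 7 := by
      rw [integral_sub (integrable_const _) (sint (by fun_prop)), E_x0_sq]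
      simp
      norm_num
    rw [h3, h4, h5, h6]
    simp only [dv, if_neg hi]
    rw [A2]
    ring

theorem B_norm (x : Sph 7) :
    ‖Matrix.toEuclideanLin (dm 1 (64 / 1025)) (x : EuclideanSpace ℝ (Fin 7))‖ =
      D ((x : EuclideanSpace ℝ (Fin 7)) 0) := by
  have h := dm_norm_sq 1 (64 / 1025) x
  rw [D, ← Real.sqrt_sq (norm_nonneg _), h]
  congr 1
  norm_num

theorem lin_cont (H : Matrix (Fin 7) (Fin 7) ℝ) :
    Continuous (fun x : Sph 7 => Matrix.toEuclideanLin H (x : EuclideanSpace ℝ (Fin 7))) :=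
  (LinearMap.continuous_of_finiteDimensional _).comp continuous_subtype_val

/-- The dual bound: `⟨A, H⟩ ≤ ‖H‖_{H¹}`. -/
theorem inn_le (H : Matrix (Fin 7) (Fin 7) ℝ) : inn Actr H ≤ Hnorm 1 H := by
  rw [inn_eq, Hnorm_eq]
  simp only [Real.rpow_one, div_one]
  refine integral_mono (sint ?_) (sint ?_) fun x => ?_
  · refine Continuous.mul (qc.comp (by fun_prop)) ?_
    exact (lin_cont _).inner (lin_cont _)
  · exact (lin_cont _).norm
  · have h1 := real_inner_le_norm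
      (Matrix.toEuclideanLin (dm 1 (64 / 1025)) (x : EuclideanSpace ℝ (Fin 7)))
      (Matrix.toEuclideanLin H (x : EuclideanSpace ℝ (Fin 7)))
    rw [B_norm] at h1
    have hD := D_pos ((x : EuclideanSpace ℝ (Fin 7)) 0)
    simp only
    rw [inv_mul_le_iff₀ hD]
    exact h1

theorem dual_le : dualNorm Actr ≤ 1 := by
  refine csSup_le ⟨_, 0, ?_, rfl⟩ ?_
  · rw [Hnorm_eq]
    simp
  · rintro t ⟨B, hB, rfl⟩
    exact (inn_le B).trans hB

theorem bdd : BddAbove {t : ℝ | ∃ B : Matrix (Fin 7) (Fin 7) ℝ, Hnorm 1 B ≤ 1 ∧ t = inn Actr B} := by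
  refine ⟨1, ?_⟩
  rintro t ⟨B, hB, rfl⟩
  exact (inn_le B).trans hB

theorem c_nonneg (n : ℕ) : 0 ≤ c n := by
  unfold c
  have h1 : 0 ≤ Real.Gamma (((n : ℝ) + 1) / 2) := Real.Gamma_nonneg_of_nonneg (by positivity)
  have h2 : 0 ≤ Real.Gamma ((n : ℝ) / 2) := Real.Gamma_nonneg_of_nonneg (by positivity)
  positivity

theorem big : 1 < c 7 * Hnorm 4 Actr := by
  have h1 := final_bound A1 A2 a1_bound a_bound
  have h2 : Hnorm 4 Actr ^ 4 = ((A1 ^ 2 + 6 * A2 ^ 2) ^ 2 + 2 * (A1 ^ 4 + 6 * A2 ^ 4)) / 63 := by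
    rw [Hnorm_eq, Actr, H4]
    rw [← Real.rpow_natCast, ← Real.rpow_mul (by positivity)]
    norm_num
  have h3 : 0 ≤ Hnorm 4 Actr := by
    rw [Hnorm_eq]
    refine Real.rpow_nonneg (integral_nonneg fun x => ?_) _
    positivity
  rw [← h2, ← mul_pow] at h1
  by_contra hc
  have h4 : (c 7 * Hnorm 4 Actr) ^ 4 ≤ 1 :=
    pow_le_one₀ (mul_nonneg (c_nonneg 7) h3) (not_lt.mp hc)
  linarith

end MP1d723d
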