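import Pool.Agent.Lib_MP_1d723d_an.Marginal

/-!
# The marginal formula in dimension 7 and the symmetries
-/

namespace MP1d723d

open MeasureTheory Real Set Metric

/-- substitution `t = cos θ` -/
theorem cos_subst {f : ℝ → ℝ} (hf : Continuous f) :
    ∫ θ in Ioo (0 : ℝ) π, Real.sin θ ^ 5 * f (Real.cos θ) =
      ∫ t in (-1 : ℝ)..1, f t * (1 - t ^ 2) ^ 2 := by
  have h1 : ∫ θ in (0 : ℝ)..π, ((fun t => f t * (1 - t ^ 2) ^ 2) ∘ Real.cos) θ * (-Real.sin θ) =
      ∫ t in Real.cos 0..Real.cos π, f t * (1 - t ^ 2) ^ 2 := by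
    refine intervalIntegral.integral_comp_mul_deriv (fun θ _ => Real.hasDerivAt_cos θ) ?_ ?_
    · fun_prop
    · fun_prop
  rw [Real.cos_zero, Real.cos_pi, intervalIntegral.integral_symm (-1) 1] at h1
  rw [← integral_Ioc_eq_integral_Ioo, ← intervalIntegral.integral_of_le Real.pi_pos.le]
  have h2 : ∫ t in (-1 : ℝ)..1, f t * (1 - t ^ 2) ^ 2 =
      -∫ θ in (0 : ℝ)..π, ((fun t => f t * (1 - t ^ 2) ^ 2) ∘ Real.cos) θ * (-Real.sin θ) := by
    rw [h1]; ring
  rw [h2, ← intervalIntegral.integral_neg]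
  refine intervalIntegral.integral_congr fun θ _ => ?_
  simp only [Function.comp]
  have h3 : 1 - Real.cos θ ^ 2 = Real.sin θ ^ 2 := by
    have := Real.sin_sq_add_cos_sq θ
    linarith
  rw [h3]
  ring

/-- total mass -/
theorem mass7 : (volume : Measure (EuclideanSpace ℝ (Fin 7))).toSphere.real Set.univ =
    Cb 5 * (16 / 15) := by
  have h := marg0 5 (f := fun _ => (1 : ℝ)) continuous_const
  rw [cos_subst continuous_const] at h
  have h2 : ∫ t in (-1 : ℝ)..1, (1 : ℝ) * (1 - t ^ 2) ^ 2 = 16 / 15 := by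
    have : ∀ t : ℝ, (1 : ℝ) * (1 - t ^ 2) ^ 2 = 1 - 2 * t ^ 2 + t ^ 4 := fun t => by ring
    simp only [this]
    rw [intervalIntegral.integral_add, intervalIntegral.integral_sub,
      intervalIntegral.integral_const_mul, integral_pow, integral_pow]
    · norm_num
    all_goals exact Continuous.intervalIntegrable (by fun_prop) _ _
  rw [h2] at h
  rw [← h]
  simp

/-- The marginal formula for `S⁶ ⊆ ℝ⁷`. -/
theorem marg7 {f : ℝ → ℝ} (hf : Continuous f) :
    ∫ x : Sph 7, f ((x : EuclideanSpace ℝ (Fin 7)) 0) ∂(sphμ 7) =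
      (15 / 16) * ∫ t in (-1 : ℝ)..1, f t * (1 - t ^ 2) ^ 2 := by
  have h := marg0 5 hf
  rw [cos_subst hf] at h
  rw [sphμ, surf, integral_smul_measure, h, ENNReal.toReal_inv, smul_eq_mul]
  have h1 : ((volume : Measure (EuclideanSpace ℝ (Fin 7))).toSphere Set.univ).toReal =
    Cb 5 * (16 / 15) := mass7
  have h2 : ((volume : Measure (EuclideanSpace ℝ (Fin 7))).toSphere Set.univ).toReal ≠ 0 :=
    ENNReal.toReal_ne_zero.mpr ⟨toSphere_univ_ne_zero, measure_ne_top _ _⟩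
  rw [h1] at h2 ⊢
  have h3 : Cb 5 ≠ 0 := left_ne_zero_of_mul h2
  field_simp

section sym

variable {n : ℕ}

/-- the reflection `x_i ↦ -x_i` -/
noncomputable def refl (i : Fin n) : EuclideanSpace ℝ (Fin n) ≃ₗᵢ[ℝ] EuclideanSpace ℝ (Fin n) :=
  LinearIsometryEquiv.piLpCongrRight 2
    (fun j => if j = i then LinearIsometryEquiv.neg ℝ else LinearIsometryEquiv.refl ℝ ℝ)

theorem refl_apply (i j : Fin n) (x : EuclideanSpace ℝ (Fin n)) :
    refl i x j = if j = i then -x j else x j := by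
  simp only [refl, LinearIsometryEquiv.piLpCongrRight_apply]
  split_ifs <;> simp

/-- permutation of the coordinates -/
noncomputable def perm (e : Equiv.Perm (Fin n)) :
    EuclideanSpace ℝ (Fin n) ≃ₗᵢ[ℝ] EuclideanSpace ℝ (Fin n) :=
  LinearIsometryEquiv.piLpCongrLeft 2 ℝ ℝ e

theorem perm_apply (e : Equiv.Perm (Fin n)) (j : Fin n) (x : EuclideanSpace ℝ (Fin n)) :
    perm e x j = x (e.symm j) := by
  simp [perm, LinearIsometryEquiv.piLpCongrLeft_apply, Equiv.piCongrLeft']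

end sym

/-- Mixed second moments vanish. -/
theorem mixed (q : ℝ → ℝ) (hq : ∀ t, q (-t) = q t) {i j : Fin 7} (hij : i ≠ j) :
    ∫ x : Sph 7, q ((x : EuclideanSpace ℝ (Fin 7)) 0) * ((x : EuclideanSpace ℝ (Fin 7)) i *
      (x : EuclideanSpace ℝ (Fin 7)) j) ∂(sphμ 7) = 0 := by
  have h := sphμ_inv (refl i) (fun x : EuclideanSpace ℝ (Fin 7) => q (x 0) * (x i * x j))
  have h2 : ∀ x : EuclideanSpace ℝ (Fin 7), q (refl i x 0) * (refl i x i * refl i x j) =
      -(q (x 0) * (x i * x j)) := by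
    intro x
    rw [refl_apply, refl_apply, refl_apply, if_pos rfl, if_neg hij.symm]
    split_ifs
    · rw [hq]; ring
    · ring
  simp only [h2] at h
  rw [integral_neg] at h
  linarith

/-- The last six coordinates have the same second moments. -/
theorem swap_moment (q : ℝ → ℝ) {i j : Fin 7} (hi : i ≠ 0) (hj : j ≠ 0) :
    ∫ x : Sph 7, q ((x : EuclideanSpace ℝ (Fin 7)) 0) * (x : EuclideanSpace ℝ (Fin 7)) i ^ 2
      ∂(sphμ 7) =
    ∫ x : Sph 7, q ((x : EuclideanSpace ℝ (Fin 7)) 0) * (x : EuclideanSpace ℝ (Fin 7)) j ^ 2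
      ∂(sphμ 7) := by
  have h := sphμ_inv (perm (Equiv.swap i j))
    (fun x : EuclideanSpace ℝ (Fin 7) => q (x 0) * x j ^ 2)
  rw [← h]
  refine integral_congr_ae (Filter.Eventually.of_forall fun x => ?_)
  simp only [perm_apply, Equiv.symm_swap, Equiv.swap_apply_right]
  rw [Equiv.swap_apply_of_ne_of_ne hi.symm hj.symm]

theorem sphere_sum (x : Sph 7) : ∑ i : Fin 7, (x : EuclideanSpace ℝ (Fin 7)) i ^ 2 = 1 := by
  have h : ‖(x : EuclideanSpace ℝ (Fin 7))‖ = 1 := by simp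
  have h2 := EuclideanSpace.norm_sq_eq (x : EuclideanSpace ℝ (Fin 7))
  rw [h] at h2
  simpa using h2.symm

theorem sint {g : Sph 7 → ℝ} (hg : Continuous g) : Integrable g (sphμ 7) :=
  hg.integrable_of_hasCompactSupport (HasCompactSupport.of_compactSpace g)

/-- `E[q(x₀) x_i²] = (1/6) E[q(x₀)(1 - x₀²)]` for `i ≠ 0`. -/
theorem off_moment {q : ℝ → ℝ} (hq : Continuous q) {i : Fin 7} (hi : i ≠ 0) :
    ∫ x : Sph 7, q ((x : EuclideanSpace ℝ (Fin 7)) 0) * (x : EuclideanSpace ℝ (Fin 7)) i ^ 2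
      ∂(sphμ 7) =
    (1 / 6) * ∫ x : Sph 7, q ((x : EuclideanSpace ℝ (Fin 7)) 0) *
      (1 - (x : EuclideanSpace ℝ (Fin 7)) 0 ^ 2) ∂(sphμ 7) := by
  have h1 : ∫ x : Sph 7, q ((x : EuclideanSpace ℝ (Fin 7)) 0) *
      (1 - (x : EuclideanSpace ℝ (Fin 7)) 0 ^ 2) ∂(sphμ 7) =
      ∫ x : Sph 7, ∑ j : Fin 6, q ((x : EuclideanSpace ℝ (Fin 7)) 0) *
        (x : EuclideanSpace ℝ (Fin 7)) j.succ ^ 2 ∂(sphμ 7) := by
    refine integral_congr_ae (Filter.Eventually.of_forall fun x => ?_)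
    have h := sphere_sum x
    rw [Fin.sum_univ_succ] at h
    simp only
    rw [← Finset.mul_sum, ← h]
    ring
  have h2 : ∀ j : Fin 6, ∫ x : Sph 7, q ((x : EuclideanSpace ℝ (Fin 7)) 0) *
        (x : EuclideanSpace ℝ (Fin 7)) j.succ ^ 2 ∂(sphμ 7) =
      ∫ x : Sph 7, q ((x : EuclideanSpace ℝ (Fin 7)) 0) *
        (x : EuclideanSpace ℝ (Fin 7)) i ^ 2 ∂(sphμ 7) :=
    fun j => swap_moment q (Fin.succ_ne_zero j) hi
  rw [h1, integral_finsetSum]
  · simp only [h2, Finset.sum_const, Finset.card_univ, Fintype.card_fin, nsmul_eq_mul]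
    push_cast
    ring
  · intro j _
    exact sint (by fun_prop)

end MP1d723d
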