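import Pool.Agent.Lib_MP_1d723d_an.Polar

/-!
# The distribution of one coordinate on the sphere
-/

namespace MP1d723d

open MeasureTheory Real Set Metric

/-- `ℝ^{k+1} ≃ ℝ × ℝ^k`. -/
noncomputable def splitE (k : ℕ) :
    EuclideanSpace ℝ (Fin (k + 1)) ≃ᵐ ℝ × EuclideanSpace ℝ (Fin k) :=
  ((MeasurableEquiv.toLp 2 (Fin (k + 1) → ℝ)).symm.trans
    (MeasurableEquiv.piFinSuccAbove (fun _ => ℝ) 0)).trans
    ((MeasurableEquiv.refl ℝ).prodCongr (MeasurableEquiv.toLp 2 (Fin k → ℝ)))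

theorem splitE_mp (k : ℕ) : MeasurePreserving (splitE k) := by
  refine MeasurePreserving.trans (MeasurePreserving.trans
    (EuclideanSpace.volume_preserving_symm_measurableEquiv_toLp _)
    (volume_preserving_piFinSuccAbove (fun _ : Fin (k + 1) => ℝ) 0)) ?_
  exact (MeasurePreserving.id _).prod
    (EuclideanSpace.volume_preserving_symm_measurableEquiv_toLp (Fin k)).symm

theorem splitE_fst (k : ℕ) (x : EuclideanSpace ℝ (Fin (k + 1))) : (splitE k x).1 = x 0 := rfl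

theorem splitE_snd (k : ℕ) (x : EuclideanSpace ℝ (Fin (k + 1))) (i : Fin k) :
    (splitE k x).2 i = x i.succ := rfl

theorem splitE_norm (k : ℕ) (x : EuclideanSpace ℝ (Fin (k + 1))) :
    ‖x‖ ^ 2 = (splitE k x).1 ^ 2 + ‖(splitE k x).2‖ ^ 2 := by
  rw [EuclideanSpace.norm_sq_eq, EuclideanSpace.norm_sq_eq, Fin.sum_univ_succ]
  simp [splitE_fst, splitE_snd]

/-- the integrand `(s, ρ) ↦ f(s / √(s²+ρ²)) e^{-(s²+ρ²)}` -/
noncomputable def Gf (f : ℝ → ℝ) (s ρ : ℝ) : ℝ :=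
  f (s / √(s ^ 2 + ρ ^ 2)) * Real.exp (-(s ^ 2 + ρ ^ 2))

theorem abs_div_sqrt_le (s ρ : ℝ) : |s / √(s ^ 2 + ρ ^ 2)| ≤ 1 := by
  rw [abs_div, abs_of_nonneg (Real.sqrt_nonneg _)]
  refine div_le_one_of_le₀ ?_ (Real.sqrt_nonneg _)
  refine Real.abs_le_sqrt ?_
  nlinarith [sq_nonneg ρ]

theorem Gf_bound {f : ℝ → ℝ} {M : ℝ} (hM : ∀ t ∈ Icc (-1 : ℝ) 1, |f t| ≤ M) (s ρ : ℝ) :
    ‖Gf f s ρ‖ ≤ M * (Real.exp (-s ^ 2) * Real.exp (-ρ ^ 2)) := by
  rw [Gf, norm_mul, Real.norm_eq_abs, Real.norm_eq_abs, Real.abs_exp, ← Real.exp_add]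
  have h := hM (s / √(s ^ 2 + ρ ^ 2)) (abs_le.mp (abs_div_sqrt_le s ρ))
  have h2 : -(s ^ 2 + ρ ^ 2) = -s ^ 2 + -ρ ^ 2 := by ring
  rw [h2]
  exact mul_le_mul_of_nonneg_right h (Real.exp_nonneg _)

theorem Gf_measurable {f : ℝ → ℝ} (hf : Measurable f) :
    Measurable (fun p : ℝ × ℝ => Gf f p.1 p.2) := by
  unfold Gf
  fun_prop

/-- integrability of `ρ^k e^{-ρ²}` on `(0, ∞)` -/
theorem rad_int (k : ℕ) : IntegrableOn (fun r : ℝ => r ^ k * Real.exp (-r ^ 2)) (Ioi 0) := by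
  have h := integrableOn_rpow_mul_exp_neg_mul_sq (b := 1) one_pos (s := (k : ℝ)) (by
    have : (0 : ℝ) ≤ k := by positivity
    linarith)
  refine h.congr_fun ?_ measurableSet_Ioi
  intro x hx
  simp [Real.rpow_natCast]

theorem gauss_int (k : ℕ) :
    Integrable (fun y : EuclideanSpace ℝ (Fin (k + 1)) => Real.exp (-‖y‖ ^ 2)) := by
  have h := (integrable_fun_norm_addHaar (volume : Measure (EuclideanSpace ℝ (Fin (k + 1))))
    (f := fun r : ℝ => Real.exp (-r ^ 2))).mpr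
  refine h ?_
  simpa using rad_int k

theorem exp_neg_sq_int : Integrable (fun s : ℝ => Real.exp (-s ^ 2)) := by
  simpa using integrable_exp_neg_mul_sq (b := 1) one_pos

/-- The volume constant of the unit ball. -/
noncomputable def Cb (k : ℕ) : ℝ :=
  (k + 1 : ℕ) * (volume : Measure (EuclideanSpace ℝ (Fin (k + 1)))).real (ball 0 1)

/-- Step 1: from `ℝ^{m+2}` to the plane. -/
theorem step1 (m : ℕ) {f : ℝ → ℝ} (hf : Measurable f) {M : ℝ}
    (hM : ∀ t ∈ Icc (-1 : ℝ) 1, |f t| ≤ M) :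
    ∫ x : EuclideanSpace ℝ (Fin (m + 2)), f (x 0 / ‖x‖) * Real.exp (-‖x‖ ^ 2) =
      Cb m * ∫ s : ℝ, ∫ ρ in Ioi (0 : ℝ), ρ ^ m * Gf f s ρ := by
  have h1 : ∫ x : EuclideanSpace ℝ (Fin (m + 2)), f (x 0 / ‖x‖) * Real.exp (-‖x‖ ^ 2) =
      ∫ p : ℝ × EuclideanSpace ℝ (Fin (m + 1)), Gf f p.1 ‖p.2‖ := by
    rw [← (splitE_mp (m + 1)).integral_comp (splitE (m + 1)).measurableEmbedding]
    refine integral_congr_ae (Filter.Eventually.of_forall fun x => ?_)
    have h2 : √((splitE (m + 1) x).1 ^ 2 + ‖(splitE (m + 1) x).2‖ ^ 2) = ‖x‖ := by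
      rw [← splitE_norm, Real.sqrt_sq (norm_nonneg _)]
    simp only [Gf]
    rw [h2, ← splitE_norm, splitE_fst]
  rw [h1]
  have hint : Integrable (fun p : ℝ × EuclideanSpace ℝ (Fin (m + 1)) => Gf f p.1 ‖p.2‖) := by
    refine Integrable.mono' ((exp_neg_sq_int.mul_prod (gauss_int m)).const_mul M) ?_ ?_
    · have : Measurable (fun p : ℝ × EuclideanSpace ℝ (Fin (m + 1)) => (p.1, ‖p.2‖)) := by
        fun_prop
      exact ((Gf_measurable hf).comp this).aestronglyMeasurable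
    · exact Filter.Eventually.of_forall fun p => Gf_bound hM p.1 ‖p.2‖
  rw [Measure.volume_eq_prod, integral_prod _ hint, ← integral_const_mul]
  refine integral_congr_ae (Filter.Eventually.of_forall fun s => ?_)
  have h3 := integral_fun_norm_addHaar (volume : Measure (EuclideanSpace ℝ (Fin (m + 1))))
    (fun r => Gf f s r)
  simp only [finrank_euclideanSpace, Fintype.card_fin, nsmul_eq_mul, smul_eq_mul,
    Nat.add_sub_cancel] at h3
  simp only [Cb]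
  rw [h3]
  ring

/-- Step 2: the plane integral in polar coordinates. -/
theorem step2 (m : ℕ) {f : ℝ → ℝ} (hf : Measurable f) {M : ℝ}
    (hM : ∀ t ∈ Icc (-1 : ℝ) 1, |f t| ≤ M) :
    ∫ s : ℝ, ∫ ρ in Ioi (0 : ℝ), ρ ^ m * Gf f s ρ =
      (∫ r in Ioi (0 : ℝ), r ^ (m + 1) * Real.exp (-r ^ 2)) *
        ∫ θ in Ioo (0 : ℝ) π, Real.sin θ ^ m * f (Real.cos θ) := by
  have hint : IntegrableOn (fun p : ℝ × ℝ => p.2 ^ m * Gf f p.1 p.2)
      ((univ : Set ℝ) ×ˢ Ioi (0 : ℝ)) ((volume : Measure ℝ).prod volume) := by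
    rw [IntegrableOn, ← Measure.prod_restrict, Measure.restrict_univ]
    refine Integrable.mono' ((exp_neg_sq_int.mul_prod (rad_int m)).const_mul M) ?_ ?_
    · exact ((measurable_snd.pow_const m).mul (Gf_measurable hf)).aestronglyMeasurable
    · have hmem : ∀ᵐ p : ℝ × ℝ ∂((volume : Measure ℝ).prod (volume.restrict (Ioi (0 : ℝ)))),
          p ∈ (univ : Set ℝ) ×ˢ Ioi (0 : ℝ) := by
        have h0 := ae_restrict_mem (μ := (volume : Measure ℝ).prod volume)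
          ((MeasurableSet.univ : MeasurableSet (univ : Set ℝ)).prod
            (measurableSet_Ioi : MeasurableSet (Ioi (0 : ℝ))))
        rwa [← Measure.prod_restrict, Measure.restrict_univ] at h0
      filter_upwards [hmem] with p hp
      have hp2 : 0 < p.2 := hp.2
      rw [norm_mul, Real.norm_of_nonneg (by positivity)]
      have h := Gf_bound hM p.1 p.2
      calc p.2 ^ m * ‖Gf f p.1 p.2‖
          ≤ p.2 ^ m * (M * (Real.exp (-p.1 ^ 2) * Real.exp (-p.2 ^ 2))) :=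
            mul_le_mul_of_nonneg_left h (by positivity)
        _ = M * (Real.exp (-p.1 ^ 2) * (p.2 ^ m * Real.exp (-p.2 ^ 2))) := by ring
  have h1 : ∫ s : ℝ, ∫ ρ in Ioi (0 : ℝ), ρ ^ m * Gf f s ρ =
      ∫ p : ℝ × ℝ, ((univ : Set ℝ) ×ˢ Ioi (0 : ℝ)).indicator
        (fun p : ℝ × ℝ => p.2 ^ m * Gf f p.1 p.2) p := by
    rw [integral_indicator (MeasurableSet.univ.prod measurableSet_Ioi), Measure.volume_eq_prod,
      setIntegral_prod _ hint, Measure.restrict_univ]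
  rw [h1, ← integral_comp_polarCoord_symm]
  have h2 : ∫ p in polarCoord.target, p.1 • ((univ : Set ℝ) ×ˢ Ioi (0 : ℝ)).indicator
        (fun p : ℝ × ℝ => p.2 ^ m * Gf f p.1 p.2) (polarCoord.symm p) =
      ∫ p in Ioi (0 : ℝ) ×ˢ Ioo (-π) π, (p.1 ^ (m + 1) * Real.exp (-p.1 ^ 2)) *
        ((Ioo (0 : ℝ) π).indicator (fun θ => Real.sin θ ^ m * f (Real.cos θ)) p.2) := by
    rw [polarCoord_target]
    refine setIntegral_congr_fun (measurableSet_Ioi.prod measurableSet_Ioo) ?_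
    rintro ⟨r, θ⟩ ⟨hr, hθ⟩
    simp only [mem_Ioi] at hr
    simp only [mem_Ioo] at hθ
    simp only [polarCoord_symm_apply, smul_eq_mul]
    by_cases h : θ ∈ Ioo (0 : ℝ) π
    · have hs : 0 < Real.sin θ := Real.sin_pos_of_mem_Ioo h
      have hm : ((r * Real.cos θ, r * Real.sin θ) : ℝ × ℝ) ∈ (univ : Set ℝ) ×ˢ Ioi (0 : ℝ) :=
        ⟨mem_univ _, mul_pos hr hs⟩
      rw [indicator_of_mem hm, indicator_of_mem h]
      simp only [Gf]
      have h3 : (r * Real.cos θ) ^ 2 + (r * Real.sin θ) ^ 2 = r ^ 2 := by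
        nlinarith [Real.sin_sq_add_cos_sq θ]
      rw [h3, Real.sqrt_sq hr.le, mul_div_cancel_left₀ _ hr.ne']
      ring
    · have hs : Real.sin θ ≤ 0 := by
        refine Real.sin_nonpos_of_nonpos_of_neg_pi_le ?_ hθ.1.le
        by_contra hc
        exact h ⟨not_le.mp hc, hθ.2⟩
      have hm : ((r * Real.cos θ, r * Real.sin θ) : ℝ × ℝ) ∉ (univ : Set ℝ) ×ˢ Ioi (0 : ℝ) := by
        intro hc
        have hc2 : 0 < r * Real.sin θ := hc.2
        nlinarith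
      rw [indicator_of_notMem hm, indicator_of_notMem h]
      simp
  rw [h2, Measure.volume_eq_prod, setIntegral_prod_mul
    (fun r : ℝ => r ^ (m + 1) * Real.exp (-r ^ 2))
    ((Ioo (0 : ℝ) π).indicator (fun θ => Real.sin θ ^ m * f (Real.cos θ))),
    setIntegral_indicator measurableSet_Ioo]
  have h4 : Ioo (-π) π ∩ Ioo (0 : ℝ) π = Ioo 0 π := by
    ext θ
    simp only [mem_inter_iff, mem_Ioo]
    constructor
    · rintro ⟨_, h⟩; exact h
    · rintro ⟨h5, h6⟩; exact ⟨⟨by linarith, h6⟩, h5, h6⟩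
  rw [h4]

/-- The distribution of one coordinate, unnormalised. -/
theorem marg0 (m : ℕ) {f : ℝ → ℝ} (hf : Continuous f) :
    ∫ x : Sph (m + 2), f ((x : EuclideanSpace ℝ (Fin (m + 2))) 0)
      ∂(volume : Measure (EuclideanSpace ℝ (Fin (m + 2)))).toSphere =
      Cb m * ∫ θ in Ioo (0 : ℝ) π, Real.sin θ ^ m * f (Real.cos θ) := by
  obtain ⟨M, hM⟩ : ∃ M : ℝ, ∀ t ∈ Icc (-1 : ℝ) 1, |f t| ≤ M := by
    have := (isCompact_Icc (a := (-1 : ℝ)) (b := 1)).exists_bound_of_continuousOn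
      (f := f) hf.continuousOn
    simpa using this
  have h1 := gauss (n := m + 2) (fun x => f (x 0))
  have h2 : ∫ x : EuclideanSpace ℝ (Fin (m + 2)), f ((‖x‖⁻¹ • x) 0) * Real.exp (-‖x‖ ^ 2) =
      ∫ x : EuclideanSpace ℝ (Fin (m + 2)), f (x 0 / ‖x‖) * Real.exp (-‖x‖ ^ 2) := by
    refine integral_congr_ae (Filter.Eventually.of_forall fun x => ?_)
    simp [div_eq_inv_mul]
  rw [h2, step1 m hf.measurable hM, step2 m hf.measurable hM] at h1
  have h3 : m + 2 - 1 = m + 1 := rfl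
  rw [h3] at h1
  refine mul_right_cancel₀ (rad_pos (m + 1)).ne' ?_
  rw [← h1]
  ring

end MP1d723d
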