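import Pool.Agent.Lib_MP_1d723d_an.Defs

/-!
# Polar coordinates and invariance of the surface measure
-/

namespace MP1d723d

open MeasureTheory Real Set Metric

section polar

variable {E : Type*} [NormedAddCommGroup E] [NormedSpace ℝ E] [MeasurableSpace E]
  [Nontrivial E] [FiniteDimensional ℝ E] [BorelSpace E]

/-- Polar coordinates for a product of a `0`-homogeneous and a radial function. -/
theorem polar (μ : Measure E) [μ.IsAddHaarMeasure] (g : E → ℝ) (h : ℝ → ℝ) :
    ∫ x, g (‖x‖⁻¹ • x) * h ‖x‖ ∂μ =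
      (∫ x : sphere (0 : E) 1, g (x : E) ∂μ.toSphere) *
        ∫ r in Ioi (0 : ℝ), r ^ (Module.finrank ℝ E - 1) * h r := by
  calc
    ∫ x, g (‖x‖⁻¹ • x) * h ‖x‖ ∂μ
      = ∫ x : ({(0)}ᶜ : Set E), g (‖x.1‖⁻¹ • x.1) * h ‖x.1‖ ∂(μ.comap (↑)) := by
      rw [integral_subtype_comap (measurableSet_singleton _).compl
        fun x ↦ g (‖x‖⁻¹ • x) * h ‖x‖, restrict_compl_singleton]
    _ = ∫ x, g (x.1 : E) * h x.2 ∂μ.toSphere.prod (.volumeIoiPow (Module.finrank ℝ E - 1)) := by
      simpa using μ.measurePreserving_homeomorphUnitSphereProd.integral_comp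
        (Homeomorph.measurableEmbedding _)
        (fun p : sphere (0 : E) 1 × Ioi (0 : ℝ) => g (p.1 : E) * h (p.2 : ℝ))
    _ = (∫ x : sphere (0 : E) 1, g (x : E) ∂μ.toSphere) *
        ∫ x : Ioi (0 : ℝ), h x ∂.volumeIoiPow (Module.finrank ℝ E - 1) :=
      integral_prod_mul (fun x : sphere (0 : E) 1 => g (x : E)) (fun x : Ioi (0 : ℝ) => h x)
    _ = _ := by
      congr 1
      simp only [Measure.volumeIoiPow, ENNReal.ofReal]
      rw [integral_withDensity_eq_integral_smul,
        integral_subtype_comap measurableSet_Ioi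
          fun a ↦ Real.toNNReal (a ^ (Module.finrank ℝ E - 1)) • h a,
        setIntegral_congr_fun measurableSet_Ioi fun x hx ↦ ?_]
      · rw [NNReal.smul_def, Real.coe_toNNReal _ (pow_nonneg hx.out.le _), smul_eq_mul]
      · exact (measurable_subtype_coe.pow_const _).real_toNNReal

end polar

/-- The radial constant `∫_0^∞ r^m e^{-r²} dr` is positive. -/
theorem rad_pos (m : ℕ) : 0 < ∫ r in Ioi (0 : ℝ), r ^ m * Real.exp (-r ^ 2) := by
  have h := integral_rpow_mul_exp_neg_rpow (p := 2) (q := m) (by norm_num) (by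
    have : (0 : ℝ) ≤ m := by positivity
    linarith)
  have h2 : ∫ r in Ioi (0 : ℝ), r ^ m * Real.exp (-r ^ 2) =
      ∫ r in Ioi (0 : ℝ), r ^ (m : ℝ) * Real.exp (-r ^ (2 : ℝ)) := by
    refine setIntegral_congr_fun measurableSet_Ioi fun x hx ↦ ?_
    simp [Real.rpow_natCast]
  rw [h2, h]
  have : 0 < Real.Gamma (((m : ℝ) + 1) / 2) := Real.Gamma_pos_of_pos (by positivity)
  positivity

section inv

variable {n : ℕ} [NeZero n]

/-- The total mass of the surface measure. -/
theorem toSphere_univ_ne_zero :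
    (volume : Measure (EuclideanSpace ℝ (Fin n))).toSphere Set.univ ≠ 0 := by
  rw [Ne, Measure.measure_univ_eq_zero]
  exact Measure.toSphere_ne_zero _

instance : IsProbabilityMeasure (sphμ n) := by
  refine ⟨?_⟩
  rw [sphμ, surf, Measure.smul_apply, smul_eq_mul]
  exact ENNReal.inv_mul_cancel toSphere_univ_ne_zero (measure_ne_top _ _)

/-- Integral over the sphere as a Gaussian integral. -/
theorem gauss (g : EuclideanSpace ℝ (Fin n) → ℝ) :
    ∫ x : EuclideanSpace ℝ (Fin n), g (‖x‖⁻¹ • x) * Real.exp (-‖x‖ ^ 2) =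
      (∫ x : Sph n, g (x : EuclideanSpace ℝ (Fin n))
        ∂(volume : Measure (EuclideanSpace ℝ (Fin n))).toSphere) *
        ∫ r in Ioi (0 : ℝ), r ^ (n - 1) * Real.exp (-r ^ 2) := by
  have h := polar (volume : Measure (EuclideanSpace ℝ (Fin n))) g (fun r => Real.exp (-r ^ 2))
  simpa using h

/-- Invariance of the surface measure under linear isometries. -/
theorem toSphere_inv (T : EuclideanSpace ℝ (Fin n) ≃ₗᵢ[ℝ] EuclideanSpace ℝ (Fin n))
    (g : EuclideanSpace ℝ (Fin n) → ℝ) :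
    ∫ x : Sph n, g (T (x : EuclideanSpace ℝ (Fin n)))
        ∂(volume : Measure (EuclideanSpace ℝ (Fin n))).toSphere =
      ∫ x : Sph n, g (x : EuclideanSpace ℝ (Fin n))
        ∂(volume : Measure (EuclideanSpace ℝ (Fin n))).toSphere := by
  have h1 := gauss (n := n) (fun x => g (T x))
  have h2 := gauss (n := n) g
  have h3 : ∫ x : EuclideanSpace ℝ (Fin n), g (T (‖x‖⁻¹ • x)) * Real.exp (-‖x‖ ^ 2) =
      ∫ x : EuclideanSpace ℝ (Fin n), g (‖x‖⁻¹ • x) * Real.exp (-‖x‖ ^ 2) := by
    have h4 := T.measurePreserving.integral_comp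
      T.toHomeomorph.measurableEmbedding
      (fun x : EuclideanSpace ℝ (Fin n) => g (‖x‖⁻¹ • x) * Real.exp (-‖x‖ ^ 2))
    rw [← h4]
    refine integral_congr_ae (Filter.Eventually.of_forall fun x => ?_)
    simp
  rw [h3, h2] at h1
  exact (mul_right_cancel₀ (rad_pos (n - 1)).ne' h1).symm

/-- Invariance of the normalised surface measure under linear isometries. -/
theorem sphμ_inv (T : EuclideanSpace ℝ (Fin n) ≃ₗᵢ[ℝ] EuclideanSpace ℝ (Fin n))
    (g : EuclideanSpace ℝ (Fin n) → ℝ) :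
    ∫ x : Sph n, g (T (x : EuclideanSpace ℝ (Fin n))) ∂(sphμ n) =
      ∫ x : Sph n, g (x : EuclideanSpace ℝ (Fin n)) ∂(sphμ n) := by
  rw [sphμ, surf, integral_smul_measure, integral_smul_measure, toSphere_inv]

end inv

end MP1d723d
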